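import Pool.Agent.H38SD.PolyX

/-!
# Segment drawing, embedding not fixed

The problem: given a planar graph (no embedding is prescribed), a line segment for every vertex and
a list of obstacle segments, is there a crossing-free straight-line drawing that has every vertex on
its segment and in which no edge meets an obstacle?  This problem is `∃ℝ`-hard.  It stays
`∃ℝ`-hard if there are no obstacles and all segments are closed and not degenerate.
-/

namespace Pool.Agent.Results.MP_431574_lc.EmbeddingNotFixed

open Pool.Agent.H38SD Pool.Agent.K4H90.SegDraw Pool.Agent.NPC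

/-- **Segment drawing with obstacles, embedding not fixed, is `∃ℝ`-hard.**  More precisely, every
language in `∃ℝ` has a polynomial-time many-one reduction to the problem all of whose instances are
planar graphs without obstacles, with closed segments of positive length. -/
theorem result :
    ERHardOn
      (fun I : FInst => I.Planar ∧ I.obstacles = [] ∧
        ∀ e ∈ I.verts, e.2.closed = true ∧ e.2.p ≠ e.2.q)
      FInst.Solvable ∧
    ER.ERHard (lang fun I : FInst => I.Planar ∧ I.Solvable) := by
  have h := ERHardOn.of_sys (P := FInst.Solvable)
    (Pr := fun I : FInst => I.Planar ∧ I.obstacles = [] ∧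
      ∀ e ∈ I.verts, e.2.closed = true ∧ e.2.p ≠ e.2.q)
    H38SDP.poly_redX (fun S => ⟨redX_planar S, rfl, redX_closed S⟩) redX_correct
  refine ⟨h, ERHardOn.toERHard (Pr := FInst.Planar) ?_⟩
  intro L hL
  obtain ⟨f, hf, hp, hfL⟩ := h L hL
  exact ⟨f, hf, fun x => (hp x).1, hfL⟩

end Pool.Agent.Results.MP_431574_lc.EmbeddingNotFixed
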